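import Pool.Agent.H.MP_bab3d5_co.Main

namespace Pool.Agent.Results.MP_bab3d5_co.Holds

theorem result (r c : ℕ) (hr : Odd r) (hc : Odd c) (hrc : ¬ (r % 4 = 3 ∧ c % 4 = 3))
    (h : ℕ × ℕ) (h1 : 1 ≤ h.1 ∧ h.1 ≤ r ∧ 1 ≤ h.2 ∧ h.2 ≤ c) (he : Even h.1 ∧ Even h.2)
    (R : Set (ℕ × ℕ)) (hR : R = {p : ℕ × ℕ | 1 ≤ p.1 ∧ p.1 ≤ r ∧ 1 ≤ p.2 ∧ p.2 ≤ c ∧ p ≠ h}) :
    4 ∣ Nat.card {f : R → R // ∀ x : R, f (f x) = x ∧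
      ((x.1.1 = (f x).1.1 ∧ (x.1.2 + 1 = (f x).1.2 ∨ (f x).1.2 + 1 = x.1.2)) ∨
       (x.1.2 = (f x).1.2 ∧ (x.1.1 + 1 = (f x).1.1 ∨ (f x).1.1 + 1 = x.1.1)))} := by
  obtain ⟨a, rfl⟩ := hr
  obtain ⟨b, rfl⟩ := hc
  have hab : Even (a * b) := by
    rw [Nat.even_mul, Nat.even_iff, Nat.even_iff]; omega
  exact Pool.Agent.H.MP_bab3d5_co.main a b hab h h1.1 h1.2.1 h1.2.2.1 h1.2.2.2
    (Nat.even_iff.1 he.1) (Nat.even_iff.1 he.2) R (fun p => by simp [hR, Prod.ext_iff])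

end Pool.Agent.Results.MP_bab3d5_co.Holds
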